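import Pool.Agent.Q197.PH.Fun

/-!
# Almost sure bounds
-/

set_option autoImplicit false
set_option linter.unusedSectionVars false

namespace Pool.Agent.Q197.PH

open Finset MeasureTheory Filter Pool.Agent.Q120.ET Pool.Agent.Q120.MF Pool.Agent.Q120.AD
open scoped Topology

variable {Ω : Type*} [MeasurableSpace Ω] {μ : Measure Ω} [IsProbabilityMeasure μ] {A : Ω → Set ℕ}

/-- **The upper bound.** -/
theorem ae_up (hA : IsCramer μ A) {ε : ℝ} (hε : 0 < ε) :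
    ∀ᵐ ω ∂μ, ∀ᶠ n : ℕ in atTop, (a (A ω) n : ℝ) ≤ (2 + ε) * Real.log n ^ 2 := by
  obtain ⟨B, hB⟩ : ∃ B : ℕ → Set Ω, B = fun (n : ℕ) => {ω | tr A (Wn n ⌊(2 + ε) * Real.log n ^ 2⌋₊) ω = ∅} := ⟨_, rfl⟩
  have hs : Summable (fun i : ℕ => (i : ℝ) ^ (-(1 + ε / 4))) := Real.summable_nat_rpow.2 (by linarith)
  have hbound : ∀ᶠ n : ℕ in atTop, μ.real (B n) ≤ (n : ℝ) ^ (-(1 + ε / 4)) := by
    filter_upwards [log_le_pow (show (0 : ℝ) < 1 by norm_num) (2 + ε), log_top'.eventually_ge_atTop 1,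
      log_top'.eventually_ge_atTop ((2 + ε / 4) / (ε / 2)), eventually_ge_atTop 2] with n h1 h2 h3 h4
    have hn0 : (0 : ℝ) < n := by exact_mod_cast (by omega : 0 < n)
    rw [hB]
    show μ.real {ω | tr A (Wn n ⌊(2 + ε) * Real.log n ^ 2⌋₊) ω = ∅} ≤ _
    rw [p_eq hA h4]
    rw [Real.rpow_one] at h1
    have h5 : (2 + ε) * Real.log (n : ℝ) ^ 2 ≤ (n : ℝ) ^ 2 := by
      have e1 : Real.log (n : ℝ) ≤ n := by nlinarith
      calc (2 + ε) * Real.log (n : ℝ) ^ 2 = ((2 + ε) * Real.log n) * Real.log n := by ring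
        _ ≤ n * n := mul_le_mul h1 e1 (by linarith) hn0.le
        _ = (n : ℝ) ^ 2 := by ring
    have h0 : 0 ≤ (2 + ε) * Real.log (n : ℝ) ^ 2 := by positivity
    have h6 : ⌊(2 + ε) * Real.log (n : ℝ) ^ 2⌋₊ ≤ n ^ 2 := by
      have := (Nat.floor_le h0).trans h5
      exact_mod_cast this
    refine (p_le h4 h6).trans ?_
    rw [Real.rpow_def_of_pos hn0, Real.exp_le_exp]
    have hl2 : Real.log 2 < 1 := by
      have := Real.log_two_lt_d9
      linarith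
    have hl20 : 0 < Real.log 2 := Real.log_pos (by norm_num)
    have hd : 0 < 2 * Real.log (n : ℝ) + Real.log 2 := by linarith
    have h7 : Real.log (n : ℝ) * (1 + ε / 4) ≤ ⌊(2 + ε) * Real.log (n : ℝ) ^ 2⌋₊ / (2 * Real.log n + Real.log 2) := by
      rw [le_div_iff₀ hd]
      have h8 := Nat.lt_floor_add_one ((2 + ε) * Real.log (n : ℝ) ^ 2)
      rw [div_le_iff₀ (by positivity)] at h3
      have h9 : (2 + ε / 4) * Real.log (n : ℝ) ≤ Real.log n * (ε / 2) * Real.log n :=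
        mul_le_mul_of_nonneg_right h3 (by linarith)
      have h10 : Real.log (n : ℝ) * (1 + ε / 4) * Real.log 2 ≤ Real.log (n : ℝ) * (1 + ε / 4) * 1 :=
        mul_le_mul_of_nonneg_left hl2.le (by positivity)
      nlinarith
    linarith
  have h2 := ae_eventually_notMem (tsum_ne_top_of_real (μ := μ) hs (f := B) hbound)
  filter_upwards [h2, CI.ae_infinite hA] with ω hω hinf
  filter_upwards [hω] with n h3
  by_contra hcon
  push Not at hcon
  have h0 : 0 ≤ (2 + ε) * Real.log (n : ℝ) ^ 2 := by positivity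
  rw [lt_a_iff hinf n h0, ← tr_empty_iff] at hcon
  rw [hB] at h3
  exact h3 hcon

open Classical in
/-- the candidates -/
noncomputable def cand (ε : ℝ) (N : ℕ) : Finset ℕ :=
  (Icc N ⌊(1 + ε) * N⌋₊).filter (fun n => (Nat.totient n : ℝ) ≤ (1 + ε) * eg * (n / Real.log (Real.log N)))

theorem cand_card {ε c : ℝ} (hε : 0 < ε) (hc : 0 < c) (hc1 : c < 1) : ∀ᶠ N : ℕ in atTop,
    ε / 2 * (N : ℝ) ^ (1 - c) ≤ (cand ε N).card := by
  filter_upwards [exists_P hε hc, eventually_gt_atTop 0, (OT.rpow_top (show 0 < 1 - c by linarith)).eventually_ge_atTop (2 / ε)]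
    with N ⟨P, hP, hP2, hP3⟩ hN h3
  have hN0 : (0 : ℝ) < N := by exact_mod_cast hN
  have hP0 : (0 : ℝ) < P := by exact_mod_cast hP
  rw [div_le_iff₀ hε] at h3
  obtain ⟨J, hJ⟩ : ∃ J : Finset ℕ, J = Icc ⌈(N : ℝ) / P⌉₊ ⌊(1 + ε) * N / P⌋₊ := ⟨_, rfl⟩
  have h4 : J.image (fun k => P * k) ⊆ cand ε N := by
    intro n hn
    rw [mem_image] at hn
    obtain ⟨k, hk, rfl⟩ := hn
    rw [hJ, mem_Icc, Nat.ceil_le, Nat.le_floor_iff (by positivity), div_le_iff₀ hP0, le_div_iff₀ hP0] at hk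
    unfold cand
    have h5 : N ≤ P * k := by
      have : (N : ℝ) ≤ ((P * k : ℕ) : ℝ) := by push_cast; linarith [hk.1]
      exact_mod_cast this
    rw [mem_filter, mem_Icc, Nat.le_floor_iff (by positivity)]
    refine ⟨⟨h5, by push_cast; linarith [hk.2]⟩, hP3 _ (dvd_mul_right _ _) (by omega)⟩
  have h5 := card_le_card h4
  rw [card_image_of_injective _ (fun i j h => Nat.eq_of_mul_eq_mul_left hP h)] at h5
  have h6 : ε * N / P - 1 ≤ (J.card : ℝ) := by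
    rw [hJ, Nat.card_Icc]
    have e1 := Nat.lt_floor_add_one ((1 + ε) * (N : ℝ) / P)
    have e2 := Nat.ceil_lt_add_one (show 0 ≤ (N : ℝ) / P by positivity)
    have e3 : ((⌊(1 + ε) * (N : ℝ) / P⌋₊ + 1 : ℕ) : ℝ) - (⌈(N : ℝ) / P⌉₊ : ℝ) ≤
        ((⌊(1 + ε) * (N : ℝ) / P⌋₊ + 1 - ⌈(N : ℝ) / P⌉₊ : ℕ) : ℝ) := by
      rw [sub_le_iff_le_add]
      exact_mod_cast (by omega : ⌊(1 + ε) * (N : ℝ) / P⌋₊ + 1 ≤ ⌊(1 + ε) * (N : ℝ) / P⌋₊ + 1 - ⌈(N : ℝ) / P⌉₊ + ⌈(N : ℝ) / P⌉₊)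
    push_cast at e3 e1
    have e4 : (1 + ε) * (N : ℝ) / P = N / P + ε * N / P := by ring
    rw [e4] at e1 e3
    rw [e4]
    linarith
  have h7 : ε * (N : ℝ) ^ (1 - c) ≤ ε * N / P := by
    rw [mul_div_assoc]
    refine mul_le_mul_of_nonneg_left ?_ hε.le
    rw [le_div_iff₀ hP0, Real.rpow_sub hN0, Real.rpow_one]
    have e5 := Real.rpow_pos_of_pos hN0 c
    calc (N : ℝ) / (N : ℝ) ^ c * P ≤ (N : ℝ) / (N : ℝ) ^ c * (N : ℝ) ^ c := mul_le_mul_of_nonneg_left hP2 (by positivity)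
      _ = N := by field_simp
  have h8 : (J.card : ℝ) ≤ (cand ε N).card := by exact_mod_cast h5
  nlinarith

/-- **The lower bound.** -/
theorem ae_low (hA : IsCramer μ A) {ε : ℝ} (hε : 0 < ε) (hε1 : ε < 1) :
    ∀ᵐ ω ∂μ, ∀ᶠ N : ℕ in atTop, ∃ n : ℕ, N ≤ n ∧ (n : ℝ) ≤ (1 + ε) * N ∧
      (Nat.totient n : ℝ) ≤ (1 + ε) * eg * (n / Real.log (Real.log N)) ∧ (2 - ε) * Real.log N ^ 2 < a (A ω) n := by
  classical
  obtain ⟨h, hh⟩ : ∃ h : ℕ → ℕ, h = fun (N : ℕ) => ⌊(2 - ε) * Real.log N ^ 2⌋₊ := ⟨_, rfl⟩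
  obtain ⟨B, hB⟩ : ∃ B : ℕ → Set Ω, B = fun (N : ℕ) => {ω | ∀ n ∈ cand ε N, ¬ tr A (Wn n (h N)) ω = ∅} := ⟨_, rfl⟩
  have hs : Summable (fun i : ℕ => (i : ℝ) ^ (-2 : ℝ)) := Real.summable_nat_rpow.2 (by norm_num)
  have hbound : ∀ᶠ N : ℕ in atTop, μ.real (B N) ≤ (N : ℝ) ^ (-2 : ℝ) := by
    filter_upwards [cand_card hε (show 0 < ε / 4 by positivity) (by linarith),
      OT.exp_small (show 0 < ε / 4 by positivity) (show (0 : ℝ) < ε / 2 * Real.exp (-1) by positivity),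
      log_le_pow (show (0 : ℝ) < 1 / 2 by norm_num) 1, log_top'.eventually_ge_atTop 1, eventually_ge_atTop 2]
      with N h1 h2 h3 h4 h5
    have hN0 : (0 : ℝ) < N := by exact_mod_cast (by omega : 0 < N)
    have h0 : 0 ≤ (2 - ε) * Real.log (N : ℝ) ^ 2 := mul_nonneg (by linarith) (by positivity)
    have hhN : (h N : ℝ) ≤ (2 - ε) * Real.log (N : ℝ) ^ 2 := by
      rw [hh]
      exact Nat.floor_le h0
    have hh2 : ∀ n ∈ cand ε N, h N ≤ 2 * n := by
      intro n hn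
      unfold cand at hn
      rw [mem_filter, mem_Icc] at hn
      have e1 : (N : ℝ) ≤ n := by exact_mod_cast hn.1.1
      have e2 : Real.log (N : ℝ) ^ 2 ≤ N := by
        have e3 : Real.log (N : ℝ) ^ 2 ≤ ((N : ℝ) ^ (1 / 2 : ℝ)) ^ 2 := pow_le_pow_left₀ (by linarith) (by linarith) 2
        have e3' : ((N : ℝ) ^ (1 / 2 : ℝ)) ^ 2 = N := by
          rw [← Real.rpow_natCast, ← Real.rpow_mul hN0.le]
          norm_num
        rwa [e3'] at e3
      have e4 : (h N : ℝ) ≤ 2 * n := by nlinarith [sq_nonneg (Real.log (N : ℝ))]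
      exact_mod_cast e4
    have hn2 : ∀ n ∈ cand ε N, 2 ≤ n ∧ N ≤ n := by
      intro n hn
      unfold cand at hn
      rw [mem_filter, mem_Icc] at hn
      omega
    rw [hB]
    show μ.real {ω | ∀ n ∈ cand ε N, ¬ tr A (Wn n (h N)) ω = ∅} ≤ _
    rw [real_all hA (cand ε N) (fun n => Wn n (h N)) (fun i hi => wn_three (hn2 i hi).1)
      (fun i hi j hj hij => wn_disjoint (hh2 i hi) (hh2 j hj) hij) (fun n T => ¬ T = ∅)]
    refine le_trans ?_ h2
    have hterm : ∀ n ∈ cand ε N, ∑ T ∈ (Wn n (h N)).powerset with ¬ T = ∅, cramerOn (Wn n (h N)) T ≤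
        Real.exp (-(Real.exp (-1) * (N : ℝ) ^ (-(1 - ε / 2)))) := by
      intro n hn
      have e1 := sum_filter_add_sum_filter_not (Wn n (h N)).powerset (fun T => T = ∅) (cramerOn (Wn n (h N)))
      rw [sum_cramerOn, sum_empty] at e1
      obtain ⟨e2, e2'⟩ := hn2 n hn
      have e3 : Real.log (N : ℝ) ≤ Real.log n := Real.log_le_log hN0 (by exact_mod_cast e2')
      have e4 := p_ge e2 (by linarith) (h N)
      have e5 : Real.exp (-1) * (N : ℝ) ^ (-(1 - ε / 2)) ≤ Real.exp (-((h N : ℝ) / (2 * Real.log n) * (1 + 1 / Real.log n))) := by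
        rw [Real.rpow_def_of_pos hN0, ← Real.exp_add, Real.exp_le_exp]
        have hLN : 0 < Real.log (N : ℝ) := by linarith
        have e6 : (h N : ℝ) / (2 * Real.log n) * (1 + 1 / Real.log n) ≤ (2 - ε) * Real.log (N : ℝ) ^ 2 / (2 * Real.log N) * (1 + 1 / Real.log N) := by
          gcongr
        have e7 : (2 - ε) * Real.log (N : ℝ) ^ 2 / (2 * Real.log N) * (1 + 1 / Real.log N) = (1 - ε / 2) * (Real.log N + 1) := by
          field_simp
        rw [e7] at e6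
        nlinarith
      have e8 := Real.add_one_le_exp (-(Real.exp (-1) * (N : ℝ) ^ (-(1 - ε / 2))))
      unfold pE at e4
      linarith
    refine (prod_le_prod (fun n hn => sum_nonneg (fun T hT => cramerOn_nonneg (wn_three (hn2 n hn).1)
      (mem_powerset.1 (mem_filter.1 hT).1))) hterm).trans ?_
    rw [prod_const, ← Real.exp_nat_mul, Real.exp_le_exp]
    have e1 : 0 ≤ Real.exp (-1) * (N : ℝ) ^ (-(1 - ε / 2)) := by positivity
    have e2 := mul_le_mul_of_nonneg_right h1 e1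
    have e3 : ε / 2 * (N : ℝ) ^ (1 - ε / 4) * (Real.exp (-1) * (N : ℝ) ^ (-(1 - ε / 2))) = ε / 2 * Real.exp (-1) * (N : ℝ) ^ (ε / 4) := by
      have e4 : (N : ℝ) ^ (1 - ε / 4) * (N : ℝ) ^ (-(1 - ε / 2)) = (N : ℝ) ^ (ε / 4) := by
        rw [← Real.rpow_add hN0]
        congr 1
        ring
      rw [← e4]
      ring
    rw [e3] at e2
    linarith
  have h2 := ae_eventually_notMem (tsum_ne_top_of_real (μ := μ) hs (f := B) hbound)
  filter_upwards [h2, CI.ae_infinite hA] with ω hω hinf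
  filter_upwards [hω] with N h3
  rw [hB] at h3
  simp only [Set.mem_ofPred_eq, not_forall, not_not] at h3
  obtain ⟨n, hn, h4⟩ := h3
  unfold cand at hn
  rw [mem_filter, mem_Icc, Nat.le_floor_iff (by positivity)] at hn
  refine ⟨n, hn.1.1, hn.1.2, hn.2, ?_⟩
  rw [lt_a_iff hinf n (mul_nonneg (by linarith) (by positivity)), ← tr_empty_iff]
  rw [hh] at h4
  exact h4

end Pool.Agent.Q197.PH
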