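import Pool.Agent.Q197.PH.Law

/-!
# The probability of failure beyond `N`
-/

set_option autoImplicit false
set_option linter.unusedSectionVars false

namespace Pool.Agent.Q197.PH

open Finset MeasureTheory Filter Pool.Agent.Q120.ET Pool.Agent.Q120.MF Pool.Agent.Q120.AD
open scoped Topology

variable {Ω : Type*} [MeasurableSpace Ω] {μ : Measure Ω} [IsProbabilityMeasure μ] {A : Ω → Set ℕ}

theorem X_top : Tendsto (fun n : ℕ => (n : ℝ) / Real.log (Real.log n)) atTop atTop := by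
  refine tendsto_atTop_mono' _ ?_ log_top'
  filter_upwards [loglog_top.eventually_gt_atTop 0, log_top'.eventually_gt_atTop 0, eventually_gt_atTop 0,
    log_le_pow (show (0 : ℝ) < 1 / 2 by norm_num) 1] with N h5 h6' h7 h9
  have hN0 : (0 : ℝ) < N := by exact_mod_cast h7
  have hr : 0 < (N : ℝ) ^ (1 / 2 : ℝ) := Real.rpow_pos_of_pos hN0 _
  have e0 : Real.log (Real.log (N : ℝ)) ≤ Real.log N := (Real.log_le_sub_one_of_pos h6').trans (by linarith)
  rw [le_div_iff₀ h5]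
  have e3 : Real.log (N : ℝ) * Real.log (Real.log N) ≤ (N : ℝ) ^ (1 / 2 : ℝ) * (N : ℝ) ^ (1 / 2 : ℝ) :=
    mul_le_mul (by linarith) (by linarith) h5.le hr.le
  rw [← Real.rpow_add hN0] at e3
  norm_num at e3
  exact e3

theorem pE_fail {δ ε : ℝ} (hδ : 0 < δ) (hε : 0 < ε) (hε1 : ε ≤ 1) : ∀ᶠ n : ℕ in atTop,
    pE n ⌊δ * (1 + Nat.totient n)⌋₊ ≤ Real.exp (-((1 - 3 * ε) * (δ * eg / 2) * g n)) := by
  have he := eg_pos
  filter_upwards [phi_ge hε hε1, X_top.eventually_ge_atTop (1 / (ε * δ * eg)), log_top'.eventually_ge_atTop (1 / (2 * ε)),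
    loglog_top.eventually_gt_atTop 0, eventually_ge_atTop 2, (tendsto_natCast_atTop_atTop (R := ℝ)).eventually_ge_atTop (2 * δ)]
    with n h1 h2 h3 h4 h5 h6
  have hn0 : (0 : ℝ) < n := by exact_mod_cast (by omega : 0 < n)
  have hn1 : (1 : ℝ) ≤ n := by exact_mod_cast (by omega : 1 ≤ n)
  have hL : 0 < Real.log (n : ℝ) := Real.log_pos (by exact_mod_cast (by omega : 1 < n))
  have hx0 : 0 ≤ δ * (1 + (Nat.totient n : ℝ)) := by positivity
  have hfl : ⌊δ * (1 + (Nat.totient n : ℝ))⌋₊ ≤ n ^ 2 := by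
    have e1 : (Nat.totient n : ℝ) ≤ n := by exact_mod_cast Nat.totient_le n
    have e2 : δ * (1 + (Nat.totient n : ℝ)) ≤ (n : ℝ) ^ 2 := by
      have e3 : δ * (1 + (Nat.totient n : ℝ)) ≤ δ * (2 * n) := mul_le_mul_of_nonneg_left (by linarith) hδ.le
      nlinarith
    have := (Nat.floor_le hx0).trans e2
    exact_mod_cast this
  refine (p_le h5 hfl).trans ?_
  rw [Real.exp_le_exp, neg_le_neg_iff]
  obtain ⟨X, hX⟩ : ∃ X : ℝ, X = (n : ℝ) / Real.log (Real.log n) := ⟨_, rfl⟩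
  rw [← hX] at h1 h2
  have hg : g n = X / Real.log n := by
    unfold g
    rw [hX]
    field_simp
  have hX0 : 0 < X := by rw [hX]; positivity
  rw [div_le_iff₀ (by positivity)] at h2 h3
  have hl2 : Real.log 2 < 1 := by
    have := Real.log_two_lt_d9
    linarith
  have hl20 : 0 < Real.log 2 := Real.log_pos (by norm_num)
  have e1 := Nat.lt_floor_add_one (δ * (1 + (Nat.totient n : ℝ)))
  have e2 : (1 - 2 * ε) * (δ * eg * X) ≤ ⌊δ * (1 + (Nat.totient n : ℝ))⌋₊ := by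
    have e3 := mul_le_mul_of_nonneg_left h1 hδ.le
    nlinarith
  have e4 : 2 * Real.log (n : ℝ) + Real.log 2 ≤ 2 * Real.log n * (1 + ε) := by nlinarith
  have e5 : (0 : ℝ) < 2 * Real.log (n : ℝ) + Real.log 2 := by linarith
  rw [le_div_iff₀ e5]
  rcases le_or_gt (1 - 3 * ε) 0 with h7 | h7
  · have e6 : (1 - 3 * ε) * (δ * eg / 2) * g n * (2 * Real.log n + Real.log 2) ≤ 0 := by
      rw [hg]
      have : 0 ≤ (δ * eg / 2) * (X / Real.log n) * (2 * Real.log (n : ℝ) + Real.log 2) := by positivity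
      nlinarith
    exact e6.trans (Nat.cast_nonneg _)
  · refine le_trans ?_ e2
    have e7 : (1 - 3 * ε) * (δ * eg / 2) * g n * (2 * Real.log n + Real.log 2) ≤
        (1 - 3 * ε) * (δ * eg / 2) * g n * (2 * Real.log n * (1 + ε)) := by
      apply mul_le_mul_of_nonneg_left e4
      rw [hg]
      positivity
    refine e7.trans (le_of_eq_of_le (b := (1 - 3 * ε) * (1 + ε) * (δ * eg * X)) ?_ ?_)
    · rw [hg]
      field_simp
    · apply mul_le_mul_of_nonneg_right _ (by positivity)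
      nlinarith

theorem tail_two : ∀ᶠ N : ℕ in atTop, ∑' k : ℕ, ((k + N : ℕ) : ℝ) ^ (-2 : ℝ) ≤ 1 := by
  have h := tendsto_sum_nat_add (fun n : ℕ => (n : ℝ) ^ (-2 : ℝ))
  filter_upwards [h.eventually_lt_const (show (0 : ℝ) < 1 by norm_num)] with N hN
  exact hN.le

/-- failure beyond `N` -/
def Ev (A : Ω → Set ℕ) (δ : ℝ) (N : ℕ) : Set Ω := {ω | ∃ n : ℕ, N ≤ n ∧ δ * (1 + Nat.totient n) < a (A ω) n}

theorem fail_le (hA : IsCramer μ A) {δ ε : ℝ} (hδ : 0 < δ) (hε : 0 < ε) (hε1 : ε ≤ 1) : ∀ᶠ N : ℕ in atTop,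
    μ.real (Ev A δ N) ≤ Real.exp (-((1 - ε) * (δ * eg / 2) * g N)) := by
  have he := eg_pos
  have hε4 : 0 < ε / 4 := by positivity
  obtain ⟨n0, hn0⟩ := eventually_atTop.1 ((pE_fail hδ hε4 (by linarith)).and
    ((g_big (show 0 < ε / 4 * (δ * eg / 2) by positivity)).and (eventually_ge_atTop 2)))
  filter_upwards [g_mono, tail_two, eventually_ge_atTop n0] with N h1 h2 h3
  obtain ⟨E, hE⟩ : ∃ E : ℕ → Set Ω, E = fun (k : ℕ) =>
    {ω | tr A (Wn (k + N) ⌊δ * (1 + (Nat.totient (k + N) : ℝ))⌋₊) ω = ∅} := ⟨_, rfl⟩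
  obtain ⟨M, hM⟩ : ∃ M : ℝ, M = Real.exp (-((1 - ε) * (δ * eg / 2) * g N)) := ⟨_, rfl⟩
  rw [← hM]
  have hM0 : 0 < M := by rw [hM]; exact Real.exp_pos _
  have hEb : ∀ k, μ (E k) ≤ ENNReal.ofReal (M * ((k + N : ℕ) : ℝ) ^ (-2 : ℝ)) := by
    intro k
    obtain ⟨e1, e2, e3⟩ := hn0 (k + N) (by omega)
    rw [← ofReal_measureReal]
    refine ENNReal.ofReal_le_ofReal ?_
    rw [hE]
    show μ.real {ω | tr A (Wn (k + N) ⌊δ * (1 + (Nat.totient (k + N) : ℝ))⌋₊) ω = ∅} ≤ _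
    rw [p_eq hA e3]
    refine e1.trans ?_
    have e4 : -((1 - 3 * (ε / 4)) * (δ * eg / 2) * g (k + N)) =
        -((1 - ε) * (δ * eg / 2) * g (k + N)) + -(ε / 4 * (δ * eg / 2) * g (k + N)) := by ring
    rw [e4, Real.exp_add]
    refine mul_le_mul ?_ e2 (Real.exp_pos _).le hM0.le
    rw [hM, Real.exp_le_exp, neg_le_neg_iff]
    exact mul_le_mul_of_nonneg_left (h1 _ (by omega)) (mul_nonneg (by linarith) (by positivity))
  have hsub : Ev A δ N ≤ᵐ[μ] ⋃ k, E k := by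
    filter_upwards [CI.ae_infinite hA] with ω hinf hω
    obtain ⟨n, hn, h4⟩ := hω
    rw [lt_a_iff hinf n (by positivity), ← tr_empty_iff] at h4
    refine Set.mem_iUnion.2 ⟨n - N, ?_⟩
    rw [hE]
    show tr A (Wn (n - N + N) ⌊δ * (1 + (Nat.totient (n - N + N) : ℝ))⌋₊) ω = ∅
    rw [Nat.sub_add_cancel hn]
    exact h4
  have hs : Summable (fun k : ℕ => M * ((k + N : ℕ) : ℝ) ^ (-2 : ℝ)) :=
    ((summable_nat_add_iff N).2 (Real.summable_nat_rpow.2 (by norm_num : (-2 : ℝ) < -1))).mul_left M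
  have h5 : μ (Ev A δ N) ≤ ENNReal.ofReal M := by
    calc μ (Ev A δ N) ≤ μ (⋃ k, E k) := measure_mono_ae hsub
      _ ≤ ∑' k, μ (E k) := measure_iUnion_le _
      _ ≤ ∑' k, ENNReal.ofReal (M * ((k + N : ℕ) : ℝ) ^ (-2 : ℝ)) := ENNReal.tsum_le_tsum hEb
      _ = ENNReal.ofReal (∑' k, M * ((k + N : ℕ) : ℝ) ^ (-2 : ℝ)) :=
        (ENNReal.ofReal_tsum_of_nonneg (fun k => mul_nonneg hM0.le (Real.rpow_nonneg (Nat.cast_nonneg _) _)) hs).symm
      _ ≤ ENNReal.ofReal M := by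
        refine ENNReal.ofReal_le_ofReal ?_
        rw [tsum_mul_left]
        nlinarith
  exact ENNReal.toReal_le_of_le_ofReal hM0.le h5

theorem fail_ge (hA : IsCramer μ A) {δ ε : ℝ} (hδ : 0 < δ) (hε : 0 < ε) (hε1 : ε ≤ 1) : ∀ᶠ N : ℕ in atTop,
    Real.exp (-((1 + ε) * (δ * eg / 2) * g N)) ≤ μ.real (Ev A δ N) := by
  have he := eg_pos
  obtain ⟨θ, hθ⟩ : ∃ θ : ℝ, θ = ε / 16 := ⟨_, rfl⟩
  have hθ0 : 0 < θ := by rw [hθ]; positivity
  have hθ1 : θ ≤ 1 / 16 := by rw [hθ]; linarith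
  filter_upwards [exists_P hθ0 (show (0 : ℝ) < 1 / 2 by norm_num), X_top.eventually_ge_atTop (δ / (θ * δ * eg)),
    log_top'.eventually_ge_atTop (1 / θ), log_top'.eventually_ge_atTop 1,
    loglog_top.eventually_gt_atTop 0, eventually_ge_atTop 2, (OT.rpow_top (show (0 : ℝ) < 1 / 2 by norm_num)).eventually_ge_atTop (1 / θ)]
    with N ⟨P, hP, hP2, hP3⟩ h2 h3 h3' h4 h5 h6
  have hN0 : (0 : ℝ) < N := by exact_mod_cast (by omega : 0 < N)
  have hP0 : (0 : ℝ) < P := by exact_mod_cast hP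
  have hL : 0 < Real.log (N : ℝ) := by linarith
  obtain ⟨n, hn⟩ : ∃ n : ℕ, n = P * ⌈(N : ℝ) / P⌉₊ := ⟨_, rfl⟩
  have n1 : (N : ℝ) ≤ n := by
    rw [hn]
    push_cast
    have := Nat.le_ceil ((N : ℝ) / P)
    rw [div_le_iff₀ hP0] at this
    linarith
  have n1' : N ≤ n := by exact_mod_cast n1
  have n2 : (n : ℝ) ≤ (1 + θ) * N := by
    rw [hn]
    push_cast
    have e1 := Nat.ceil_lt_add_one (show 0 ≤ (N : ℝ) / P by positivity)
    have e2 := mul_le_mul_of_nonneg_left e1.le hP0.le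
    have e3 : (P : ℝ) * ((N : ℝ) / P + 1) = N + P := by field_simp
    rw [e3] at e2
    have e4 : (P : ℝ) ≤ θ * N := by
      rw [div_le_iff₀ hθ0] at h6
      have e5 : (N : ℝ) ^ (1 / 2 : ℝ) * (N : ℝ) ^ (1 / 2 : ℝ) = N := by
        rw [← Real.rpow_add hN0]
        norm_num
      have e6 : 0 < (N : ℝ) ^ (1 / 2 : ℝ) := Real.rpow_pos_of_pos hN0 _
      nlinarith
    linarith
  have n3 := hP3 n (by rw [hn]; exact dvd_mul_right _ _) (by omega)
  obtain ⟨X, hX⟩ : ∃ X : ℝ, X = (N : ℝ) / Real.log (Real.log N) := ⟨_, rfl⟩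
  rw [← hX] at h2
  have hX0 : 0 < X := by rw [hX]; positivity
  have hg : g N = X / Real.log N := by
    unfold g
    rw [hX]
    field_simp
  rw [div_le_iff₀ (by positivity)] at h2 h3
  have n4 : (Nat.totient n : ℝ) ≤ (1 + θ) ^ 2 * (eg * X) := by
    have e1 : (n : ℝ) / Real.log (Real.log N) ≤ (1 + θ) * X := by
      rw [hX, ← mul_div_assoc]
      exact div_le_div_of_nonneg_right n2 h4.le
    calc (Nat.totient n : ℝ) ≤ (1 + θ) * eg * (n / Real.log (Real.log N)) := n3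
      _ ≤ (1 + θ) * eg * ((1 + θ) * X) := mul_le_mul_of_nonneg_left e1 (by positivity)
      _ = _ := by ring
  have hx0 : 0 ≤ δ * (1 + (Nat.totient n : ℝ)) := by positivity
  have n5 : (⌊δ * (1 + (Nat.totient n : ℝ))⌋₊ : ℝ) ≤ (1 + θ) ^ 3 * (δ * eg * X) := by
    refine (Nat.floor_le hx0).trans ?_
    have e1 := mul_le_mul_of_nonneg_left n4 hδ.le
    have e2 : (1 + θ) ^ 3 * (δ * eg * X) = δ * ((1 + θ) ^ 2 * (eg * X)) + θ * (δ * eg * X) + (θ * (δ * eg * X)) * (2 * θ + θ ^ 2) := by ring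
    have e3 : 0 ≤ (θ * (δ * eg * X)) * (2 * θ + θ ^ 2) := by positivity
    nlinarith
  have n6 : Real.log (N : ℝ) ≤ Real.log n := Real.log_le_log hN0 n1
  have n7 := p_ge (show 2 ≤ n by omega) (by linarith) ⌊δ * (1 + (Nat.totient n : ℝ))⌋₊
  have n8 : Real.exp (-((1 + ε) * (δ * eg / 2) * g N)) ≤ pE n ⌊δ * (1 + (Nat.totient n : ℝ))⌋₊ := by
    refine le_trans ?_ n7
    rw [Real.exp_le_exp, neg_le_neg_iff]
    have e1 : (⌊δ * (1 + (Nat.totient n : ℝ))⌋₊ : ℝ) / (2 * Real.log n) * (1 + 1 / Real.log n) ≤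
        (1 + θ) ^ 3 * (δ * eg * X) / (2 * Real.log N) * (1 + 1 / Real.log N) := by
      gcongr
    have e2 : 1 / Real.log (N : ℝ) ≤ θ := by
      rw [div_le_iff₀ hL]
      linarith
    have e3 : (1 + θ) ^ 3 * (δ * eg * X) / (2 * Real.log N) * (1 + 1 / Real.log N) ≤
        (1 + θ) ^ 3 * (δ * eg * X) / (2 * Real.log N) * (1 + θ) :=
      mul_le_mul_of_nonneg_left (by linarith) (by positivity)
    have e4 : (1 + θ) ^ 3 * (δ * eg * X) / (2 * Real.log N) * (1 + θ) = (1 + θ) ^ 4 * (δ * eg / 2) * g N := by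
      rw [hg]
      field_simp
    have e5 : (1 + θ) ^ 4 ≤ 1 + ε := by
      have : ε = 16 * θ := by rw [hθ]; ring
      rw [this]
      nlinarith [mul_pos hθ0 hθ0, mul_pos (mul_pos hθ0 hθ0) hθ0, mul_pos (mul_pos hθ0 hθ0) (mul_pos hθ0 hθ0)]
    have hg0 : 0 ≤ (δ * eg / 2) * g N := by rw [hg]; positivity
    have e6 : (1 + θ) ^ 4 * (δ * eg / 2) * g N ≤ (1 + ε) * (δ * eg / 2) * g N := by
      rw [mul_assoc, mul_assoc]
      exact mul_le_mul_of_nonneg_right e5 hg0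
    linarith
  refine n8.trans ?_
  rw [← p_eq hA (show 2 ≤ n by omega)]
  have hsub : {ω | tr A (Wn n ⌊δ * (1 + (Nat.totient n : ℝ))⌋₊) ω = ∅} ≤ᵐ[μ] Ev A δ N := by
    filter_upwards [CI.ae_infinite hA] with ω hinf hω
    refine ⟨n, n1', ?_⟩
    rw [lt_a_iff hinf n hx0, ← tr_empty_iff]
    exact hω
  exact ENNReal.toReal_mono (measure_ne_top _ _) (measure_mono_ae hsub)

theorem g_pos : ∀ᶠ N : ℕ in atTop, 0 < g N := by
  filter_upwards [loglog_top.eventually_gt_atTop 0, log_top'.eventually_gt_atTop 0, eventually_gt_atTop 0] with N h1 h2 h3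
  unfold g
  positivity

theorem fail_law (hA : IsCramer μ A) {δ : ℝ} (hδ : 0 < δ) :
    Tendsto (fun N => Real.log (μ.real (Ev A δ N)) / g N) atTop (𝓝 (-(δ * eg / 2))) := by
  have he := eg_pos
  have key : ∀ ε : ℝ, 0 < ε → ε ≤ 1 → ∀ᶠ N : ℕ in atTop,
      -(δ * eg / 2) - ε * (δ * eg / 2) ≤ Real.log (μ.real (Ev A δ N)) / g N ∧
      Real.log (μ.real (Ev A δ N)) / g N ≤ -(δ * eg / 2) + ε * (δ * eg / 2) := by
    intro ε hε hε1
    filter_upwards [fail_le hA hδ hε hε1, fail_ge hA hδ hε hε1, g_pos] with N h1 h2 h3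
    have h4 : 0 < μ.real (Ev A δ N) := lt_of_lt_of_le (Real.exp_pos _) h2
    rw [le_div_iff₀ h3, div_le_iff₀ h3]
    rw [← Real.le_log_iff_exp_le h4] at h2
    rw [← Real.log_le_iff_le_exp h4] at h1
    constructor
    · linarith
    · linarith
  rw [Metric.tendsto_nhds]
  intro r hr
  have hc : 0 < δ * eg / 2 := by positivity
  obtain ⟨ε, h1⟩ : ∃ ε : ℝ, ε = min 1 (r / 2 / (δ * eg / 2)) := ⟨_, rfl⟩
  have h2 : 0 < ε := by rw [h1]; exact lt_min one_pos (by positivity)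
  have h3 : ε ≤ 1 := by rw [h1]; exact min_le_left _ _
  have h4 : ε * (δ * eg / 2) ≤ r / 2 := by
    have : ε ≤ r / 2 / (δ * eg / 2) := by rw [h1]; exact min_le_right _ _
    rwa [le_div_iff₀ hc] at this
  filter_upwards [key ε h2 h3] with N ⟨h5, h6⟩
  rw [Real.dist_eq, abs_lt]
  constructor <;> linarith

end Pool.Agent.Q197.PH
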