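import Pool.Agent.Q197.PH.Prob

/-!
# Slowly varying factors
-/

set_option autoImplicit false
set_option linter.unusedSectionVars false

namespace Pool.Agent.Q197.PH

open Finset Filter
open scoped Topology

theorem log_le_pow {x : ℝ} (hx : 0 < x) (c : ℝ) : ∀ᶠ n : ℕ in atTop, c * Real.log n ≤ (n : ℝ) ^ x := by
  have h1 : Tendsto (fun n : ℕ => Real.log (n : ℝ) / (n : ℝ) ^ x) atTop (𝓝 0) :=
    ((isLittleO_log_rpow_atTop hx).tendsto_div_nhds_zero).comp tendsto_natCast_atTop_atTop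
  have hc : 0 < |c| + 1 := by positivity
  filter_upwards [h1.eventually_lt_const (show 0 < 1 / (|c| + 1) by positivity), eventually_gt_atTop 0] with n h2 h3
  have hn0 : (0 : ℝ) < n := by exact_mod_cast h3
  have hp := Real.rpow_pos_of_pos hn0 x
  rw [div_lt_div_iff₀ hp hc] at h2
  have h4 := Real.log_natCast_nonneg n
  have h5 : c * Real.log n ≤ (|c| + 1) * Real.log n := mul_le_mul_of_nonneg_right (by linarith [le_abs_self c]) h4
  linarith

/-- `log² n log log n / n` -/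
noncomputable def G (n : ℕ) : ℝ := Real.log n ^ 2 * Real.log (Real.log n) / n

/-- `n / (log n log log n)` -/
noncomputable def g (n : ℕ) : ℝ := n / (Real.log n * Real.log (Real.log n))

theorem ll_anti : ∀ᶠ N : ℕ in atTop, ∀ n : ℕ, N ≤ n →
    Real.log (Real.log n) / Real.log n ≤ Real.log (Real.log N) / Real.log N := by
  filter_upwards [log_top'.eventually_ge_atTop (Real.exp 1), eventually_gt_atTop 0] with N h1 h2 n hn
  have h3 : Real.log (N : ℝ) ≤ Real.log n := Real.log_le_log (by exact_mod_cast h2) (by exact_mod_cast hn)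
  exact Real.log_div_self_antitoneOn h1 (show Real.exp 1 ≤ Real.log (n : ℝ) by linarith) h3

theorem lp_anti {x : ℝ} (hx : 0 < x) : ∀ᶠ N : ℕ in atTop, ∀ n : ℕ, N ≤ n →
    Real.log n / (n : ℝ) ^ x ≤ Real.log N / (N : ℝ) ^ x := by
  filter_upwards [(tendsto_natCast_atTop_atTop (R := ℝ)).eventually_ge_atTop (Real.exp x⁻¹)] with N h1 n hn
  have h3 : (N : ℝ) ≤ n := by exact_mod_cast hn
  exact Real.log_div_self_rpow_antitoneOn hx h1 (show Real.exp x⁻¹ ≤ n by linarith) h3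

theorem G_anti : ∀ᶠ N : ℕ in atTop, ∀ n : ℕ, N ≤ n → G n ≤ G N := by
  filter_upwards [ll_anti, lp_anti (show (0 : ℝ) < 1 / 3 by norm_num), log_top'.eventually_ge_atTop (Real.exp 1),
    eventually_gt_atTop 0] with N h1 h2 h3 h4 n hn
  have key : ∀ m : ℕ, N ≤ m → G m = (Real.log m / (m : ℝ) ^ (1 / 3 : ℝ)) ^ 3 * (Real.log (Real.log m) / Real.log m) ∧
      0 ≤ Real.log m / (m : ℝ) ^ (1 / 3 : ℝ) ∧ 0 ≤ Real.log (Real.log m) / Real.log m := by
    intro m hm
    have hm0 : (0 : ℝ) < m := by exact_mod_cast (by omega : 0 < m)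
    have h5 : Real.log (N : ℝ) ≤ Real.log m := Real.log_le_log (by exact_mod_cast h4) (by exact_mod_cast hm)
    have h6 : Real.exp 1 ≤ Real.log (m : ℝ) := h3.trans h5
    have h7 : 1 ≤ Real.log (Real.log (m : ℝ)) := by
      rw [Real.le_log_iff_exp_le (lt_of_lt_of_le (Real.exp_pos 1) h6)]
      exact h6
    have h8 : 0 < Real.log (m : ℝ) := lt_of_lt_of_le (Real.exp_pos 1) h6
    have h9 : ((m : ℝ) ^ (1 / 3 : ℝ)) ^ 3 = m := by
      rw [← Real.rpow_natCast, ← Real.rpow_mul hm0.le]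
      norm_num
    refine ⟨?_, by positivity, by positivity⟩
    rw [div_pow, h9]
    unfold G
    field_simp
  obtain ⟨a1, a2, a3⟩ := key n hn
  obtain ⟨b1, b2, b3⟩ := key N le_rfl
  rw [a1, b1]
  exact mul_le_mul (pow_le_pow_left₀ a2 (h2 n hn) 3) (h1 n hn) a3 (by positivity)

theorem g_mono : ∀ᶠ N : ℕ in atTop, ∀ n : ℕ, N ≤ n → g N ≤ g n := by
  filter_upwards [ll_anti, lp_anti (show (0 : ℝ) < 1 / 2 by norm_num), log_top'.eventually_ge_atTop (Real.exp 1),
    eventually_gt_atTop 0] with N h1 h2 h3 h4 n hn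
  have key : ∀ m : ℕ, N ≤ m → g m = ((Real.log m / (m : ℝ) ^ (1 / 2 : ℝ)) ^ 2 * (Real.log (Real.log m) / Real.log m))⁻¹ ∧
      0 < Real.log m / (m : ℝ) ^ (1 / 2 : ℝ) ∧ 0 < Real.log (Real.log m) / Real.log m := by
    intro m hm
    have hm0 : (0 : ℝ) < m := by exact_mod_cast (by omega : 0 < m)
    have h5 : Real.log (N : ℝ) ≤ Real.log m := Real.log_le_log (by exact_mod_cast h4) (by exact_mod_cast hm)
    have h6 : Real.exp 1 ≤ Real.log (m : ℝ) := h3.trans h5
    have h7 : 1 ≤ Real.log (Real.log (m : ℝ)) := by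
      rw [Real.le_log_iff_exp_le (lt_of_lt_of_le (Real.exp_pos 1) h6)]
      exact h6
    have h8 : 0 < Real.log (m : ℝ) := lt_of_lt_of_le (Real.exp_pos 1) h6
    have h9 : ((m : ℝ) ^ (1 / 2 : ℝ)) ^ 2 = m := by
      rw [← Real.rpow_natCast, ← Real.rpow_mul hm0.le]
      norm_num
    refine ⟨?_, by positivity, by positivity⟩
    rw [div_pow, h9]
    unfold g
    field_simp
  obtain ⟨a1, a2, a3⟩ := key n hn
  obtain ⟨b1, b2, b3⟩ := key N le_rfl
  rw [a1, b1]
  exact inv_anti₀ (by positivity) (mul_le_mul (pow_le_pow_left₀ a2.le (h2 n hn) 2) (h1 n hn) a3.le (by positivity))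

theorem g_top : Tendsto g atTop atTop := by
  have h1 : Tendsto (fun n : ℕ => (n : ℝ) ^ (1 / 2 : ℝ)) atTop atTop := OT.rpow_top (by norm_num)
  refine tendsto_atTop_mono' _ ?_ h1
  filter_upwards [log_le_pow (show (0 : ℝ) < 1 / 4 by norm_num) 1, log_top'.eventually_gt_atTop (Real.exp 1),
    eventually_gt_atTop 0] with n h2 h3 h4
  have hn0 : (0 : ℝ) < n := by exact_mod_cast h4
  have h8 : 0 < Real.log (n : ℝ) := lt_trans (Real.exp_pos 1) h3
  have h7 : 1 < Real.log (Real.log (n : ℝ)) := by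
    rw [Real.lt_log_iff_exp_lt h8]
    exact h3
  have h5 : Real.log (Real.log (n : ℝ)) ≤ Real.log n := (Real.log_le_sub_one_of_pos h8).trans (by linarith)
  unfold g
  rw [le_div_iff₀ (mul_pos h8 (by linarith))]
  have h6 : Real.log (n : ℝ) * Real.log (Real.log n) ≤ (n : ℝ) ^ (1 / 4 : ℝ) * (n : ℝ) ^ (1 / 4 : ℝ) :=
    mul_le_mul (by linarith) (by linarith) (by linarith) (Real.rpow_nonneg hn0.le _)
  rw [← Real.rpow_add hn0] at h6
  calc (n : ℝ) ^ (1 / 2 : ℝ) * (Real.log n * Real.log (Real.log n))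
      ≤ (n : ℝ) ^ (1 / 2 : ℝ) * (n : ℝ) ^ (1 / 4 + 1 / 4 : ℝ) := mul_le_mul_of_nonneg_left h6 (Real.rpow_nonneg hn0.le _)
    _ = n := by
      rw [← Real.rpow_add hn0]
      norm_num

/-- `c g(n)` exceeds `2 log n`. -/
theorem g_big {c : ℝ} (hc : 0 < c) : ∀ᶠ n : ℕ in atTop, Real.exp (-(c * g n)) ≤ (n : ℝ) ^ (-2 : ℝ) := by
  filter_upwards [OT.exp_small (show (0 : ℝ) < 1 / 2 by norm_num) hc, log_le_pow (show (0 : ℝ) < 1 / 4 by norm_num) 1,
    log_top'.eventually_gt_atTop (Real.exp 1), eventually_gt_atTop 0] with n h1 h2 h3 h4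
  have hn0 : (0 : ℝ) < n := by exact_mod_cast h4
  refine le_trans ?_ h1
  rw [Real.exp_le_exp]
  have h8 : 0 < Real.log (n : ℝ) := lt_trans (Real.exp_pos 1) h3
  have h7 : 1 < Real.log (Real.log (n : ℝ)) := by
    rw [Real.lt_log_iff_exp_lt h8]
    exact h3
  have h5 : Real.log (Real.log (n : ℝ)) ≤ Real.log n := (Real.log_le_sub_one_of_pos h8).trans (by linarith)
  have key : (n : ℝ) ^ (1 / 2 : ℝ) ≤ g n := by
    unfold g
    rw [le_div_iff₀ (mul_pos h8 (by linarith))]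
    have h6 : Real.log (n : ℝ) * Real.log (Real.log n) ≤ (n : ℝ) ^ (1 / 4 : ℝ) * (n : ℝ) ^ (1 / 4 : ℝ) :=
      mul_le_mul (by linarith) (by linarith) (by linarith) (Real.rpow_nonneg hn0.le _)
    rw [← Real.rpow_add hn0] at h6
    calc (n : ℝ) ^ (1 / 2 : ℝ) * (Real.log n * Real.log (Real.log n))
        ≤ (n : ℝ) ^ (1 / 2 : ℝ) * (n : ℝ) ^ (1 / 4 + 1 / 4 : ℝ) := mul_le_mul_of_nonneg_left h6 (Real.rpow_nonneg hn0.le _)
      _ = n := by
        rw [← Real.rpow_add hn0]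
        norm_num
  have := mul_le_mul_of_nonneg_left key hc.le
  linarith

end Pool.Agent.Q197.PH
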