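import Pool.Agent.Q197.PH.As

/-!
# The law of the worst ratio
-/

set_option autoImplicit false
set_option linter.unusedSectionVars false

namespace Pool.Agent.Q197.PH

open Finset MeasureTheory Filter Pool.Agent.Q120.ET Pool.Agent.Q120.MF Pool.Agent.Q120.AD
open scoped Topology

/-- the largest ratio beyond `N` -/
noncomputable def worst (S : Set ℕ) (N : ℕ) : ℝ := sSup {x : ℝ | ∃ n : ℕ, N ≤ n ∧ x = a S n / (1 + Nat.totient n)}

theorem upper {S : Set ℕ} (hup : ∀ ε : ℝ, 0 < ε → ∀ᶠ n : ℕ in atTop, (a S n : ℝ) ≤ (2 + ε) * Real.log n ^ 2) {ε : ℝ}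
    (hε : 0 < ε) (hε1 : ε < 1) : ∀ᶠ N : ℕ in atTop, ∀ n : ℕ, N ≤ n →
      (a S n : ℝ) / (1 + Nat.totient n) ≤ (2 + ε) / ((1 - ε) * eg) * G N := by
  have he := eg_pos
  obtain ⟨n0, hn0⟩ := eventually_atTop.1 ((hup ε hε).and ((phi_ge hε hε1.le).and ((loglog_top.eventually_gt_atTop 0).and
    (eventually_gt_atTop 0))))
  filter_upwards [G_anti, eventually_ge_atTop n0] with N h1 h2 n hn
  obtain ⟨h3, h4, h5, h6⟩ := hn0 n (by omega)
  have hn1 : (0 : ℝ) < n := by exact_mod_cast h6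
  have h7 : 0 < (1 - ε) * eg * (n / Real.log (Real.log n)) := by
    have : 0 < 1 - ε := by linarith
    positivity
  have h8 : 0 ≤ (2 + ε) * Real.log (n : ℝ) ^ 2 := by positivity
  have h1e : 0 < 1 - ε := by linarith
  calc (a S n : ℝ) / (1 + Nat.totient n) ≤ ((2 + ε) * Real.log n ^ 2) / ((1 - ε) * eg * (n / Real.log (Real.log n))) := by
        apply div_le_div₀ h8 h3 h7
        linarith
    _ = (2 + ε) / ((1 - ε) * eg) * G n := by
        unfold G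
        field_simp
    _ ≤ _ := mul_le_mul_of_nonneg_left (h1 n hn) (by positivity)

theorem lower {S : Set ℕ} (hlow : ∀ ε : ℝ, 0 < ε → ε < 1 → ∀ᶠ N : ℕ in atTop, ∃ n : ℕ, N ≤ n ∧ (n : ℝ) ≤ (1 + ε) * N ∧
      (Nat.totient n : ℝ) ≤ (1 + ε) * eg * (n / Real.log (Real.log N)) ∧ (2 - ε) * Real.log N ^ 2 < a S n) {ε : ℝ}
    (hε : 0 < ε) (hε1 : ε < 1) : ∀ᶠ N : ℕ in atTop, ∃ n : ℕ, N ≤ n ∧
      (2 - ε) / ((1 + ε) ^ 3 * eg) * G N ≤ (a S n : ℝ) / (1 + Nat.totient n) := by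
  have he := eg_pos
  filter_upwards [hlow ε hε hε1, loglog_top.eventually_gt_atTop 0, log_top'.eventually_ge_atTop (1 / (ε * eg)),
    log_top'.eventually_gt_atTop 0, eventually_gt_atTop 0, log_le_pow (show (0 : ℝ) < 1 / 2 by norm_num) 1] with N
    ⟨n, h1, h2, h3, h4⟩ h5 h6 h6' h7 h9
  refine ⟨n, h1, ?_⟩
  have hN0 : (0 : ℝ) < N := by exact_mod_cast h7
  have hr : 0 < (N : ℝ) ^ (1 / 2 : ℝ) := Real.rpow_pos_of_pos hN0 _
  have e0 : Real.log (Real.log (N : ℝ)) ≤ Real.log N := (Real.log_le_sub_one_of_pos h6').trans (by linarith)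
  have e1 : 1 ≤ ε * eg * (N / Real.log (Real.log N)) := by
    have e2 : Real.log (N : ℝ) ≤ N / Real.log (Real.log N) := by
      rw [le_div_iff₀ h5]
      have e3 : Real.log (N : ℝ) * Real.log (Real.log N) ≤ (N : ℝ) ^ (1 / 2 : ℝ) * (N : ℝ) ^ (1 / 2 : ℝ) :=
        mul_le_mul (by linarith) (by linarith) h5.le hr.le
      rw [← Real.rpow_add hN0] at e3
      norm_num at e3
      exact e3
    have e4 : 1 / (ε * eg) ≤ N / Real.log (Real.log N) := h6.trans e2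
    rw [div_le_iff₀ (by positivity)] at e4
    linarith
  have e5 : (1 + ε) * eg * (n / Real.log (Real.log N)) ≤ (1 + ε) * eg * ((1 + ε) * (N / Real.log (Real.log N))) := by
    apply mul_le_mul_of_nonneg_left _ (by positivity)
    rw [← mul_div_assoc]
    exact div_le_div_of_nonneg_right h2 h5.le
  obtain ⟨X, hX⟩ : ∃ X : ℝ, X = eg * (N / Real.log (Real.log N)) := ⟨_, rfl⟩
  have hX0 : 0 < X := by rw [hX]; positivity
  have e6 : (1 : ℝ) + Nat.totient n ≤ (1 + ε) ^ 3 * X := by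
    have e7 : (1 + ε) * eg * ((1 + ε) * (N / Real.log (Real.log N))) = (1 + ε) ^ 2 * X := by rw [hX]; ring
    have e8 : ε * eg * (N / Real.log (Real.log N)) = ε * X := by rw [hX]; ring
    rw [e7] at e5
    rw [e8] at e1
    have e9 : (1 + ε) ^ 3 * X = (1 + ε) ^ 2 * X + ε * X + (ε * X) * (2 * ε + ε ^ 2) := by ring
    have e10 : 0 ≤ (ε * X) * (2 * ε + ε ^ 2) := by positivity
    linarith
  have e7 : (0 : ℝ) < 1 + Nat.totient n := by positivity
  have e8 : 0 ≤ (2 - ε) * Real.log (N : ℝ) ^ 2 := mul_nonneg (by linarith) (by positivity)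
  calc (2 - ε) / ((1 + ε) ^ 3 * eg) * G N = ((2 - ε) * Real.log (N : ℝ) ^ 2) / ((1 + ε) ^ 3 * X) := by
        rw [hX]
        unfold G
        field_simp
    _ ≤ ((2 - ε) * Real.log (N : ℝ) ^ 2) / (1 + Nat.totient n) := div_le_div_of_nonneg_left e8 e7 e6
    _ ≤ _ := div_le_div_of_nonneg_right h4.le e7.le

theorem G_pos : ∀ᶠ N : ℕ in atTop, 0 < G N := by
  filter_upwards [loglog_top.eventually_gt_atTop 0, log_top'.eventually_gt_atTop 0, eventually_gt_atTop 0] with N h1 h2 h3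
  unfold G
  positivity

theorem worst_law {S : Set ℕ} (hup : ∀ ε : ℝ, 0 < ε → ∀ᶠ n : ℕ in atTop, (a S n : ℝ) ≤ (2 + ε) * Real.log n ^ 2)
    (hlow : ∀ ε : ℝ, 0 < ε → ε < 1 → ∀ᶠ N : ℕ in atTop, ∃ n : ℕ, N ≤ n ∧ (n : ℝ) ≤ (1 + ε) * N ∧
      (Nat.totient n : ℝ) ≤ (1 + ε) * eg * (n / Real.log (Real.log N)) ∧ (2 - ε) * Real.log N ^ 2 < a S n) :
    Tendsto (fun N => worst S N / G N) atTop (𝓝 (2 / eg)) := by
  have he := eg_pos
  have key : ∀ ε : ℝ, 0 < ε → ε < 1 → ∀ᶠ N : ℕ in atTop,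
      (2 - ε) / ((1 + ε) ^ 3 * eg) ≤ worst S N / G N ∧ worst S N / G N ≤ (2 + ε) / ((1 - ε) * eg) := by
    intro ε hε hε1
    filter_upwards [upper hup hε hε1, lower hlow hε hε1, G_pos] with N h1 ⟨n, hn, h2⟩ h3
    have hne : ({x : ℝ | ∃ n : ℕ, N ≤ n ∧ x = a S n / (1 + Nat.totient n)} : Set ℝ).Nonempty := ⟨_, N, le_rfl, rfl⟩
    have hb : ∀ x ∈ {x : ℝ | ∃ n : ℕ, N ≤ n ∧ x = a S n / (1 + Nat.totient n)}, x ≤ (2 + ε) / ((1 - ε) * eg) * G N := by
      rintro x ⟨m, hm, rfl⟩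
      exact h1 m hm
    rw [le_div_iff₀ h3, div_le_iff₀ h3]
    exact ⟨h2.trans (le_csSup ⟨_, hb⟩ ⟨n, hn, rfl⟩), csSup_le hne hb⟩
  have c1 : Tendsto (fun ε : ℝ => (2 - ε) / ((1 + ε) ^ 3 * eg)) (𝓝[>] 0) (𝓝 (2 / eg)) := by
    have : Tendsto (fun ε : ℝ => (2 - ε) / ((1 + ε) ^ 3 * eg)) (𝓝 0) (𝓝 ((2 - 0) / ((1 + 0) ^ 3 * eg))) := by
      apply ContinuousAt.tendsto
      apply ContinuousAt.div (by fun_prop) (by fun_prop)
      positivity
    simp only [sub_zero, add_zero, one_pow, one_mul] at this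
    exact this.mono_left nhdsWithin_le_nhds
  have c2 : Tendsto (fun ε : ℝ => (2 + ε) / ((1 - ε) * eg)) (𝓝[>] 0) (𝓝 (2 / eg)) := by
    have : Tendsto (fun ε : ℝ => (2 + ε) / ((1 - ε) * eg)) (𝓝 0) (𝓝 ((2 + 0) / ((1 - 0) * eg))) := by
      apply ContinuousAt.tendsto
      apply ContinuousAt.div (by fun_prop) (by fun_prop)
      simp only [sub_zero, one_mul]
      exact he.ne'
    simp only [sub_zero, add_zero, one_mul] at this
    exact this.mono_left nhdsWithin_le_nhds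
  have hin : ∀ᶠ ε : ℝ in 𝓝[>] 0, 0 < ε ∧ ε < 1 := by
    filter_upwards [self_mem_nhdsWithin, (eventually_lt_nhds (show (0 : ℝ) < 1 by norm_num)).filter_mono nhdsWithin_le_nhds]
      with ε h1 h2
    exact ⟨h1, h2⟩
  rw [tendsto_order]
  constructor
  · intro b hb
    obtain ⟨ε, h1, h2, h3⟩ := ((c1.eventually_const_lt hb).and hin).exists
    filter_upwards [key ε h2 h3] with N hN
    linarith [hN.1]
  · intro b hb
    obtain ⟨ε, h1, h2, h3⟩ := ((c2.eventually_lt_const hb).and hin).exists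
    filter_upwards [key ε h2 h3] with N hN
    linarith [hN.2]

end Pool.Agent.Q197.PH
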