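import Pool.Agent.Q197.PH.Tot
import Pool.Agent.Q197.OT.As
import Pool.Agent.Q197.CI.CountB

/-!
# Gaps after squares in Cramér's model
-/

set_option autoImplicit false
set_option linter.unusedSectionVars false

namespace Pool.Agent.Q197.PH

open Finset MeasureTheory Filter Pool.Agent.Q120.ET Pool.Agent.Q120.MF Pool.Agent.Q120.AD Pool.Agent.Q120.TD
open scoped Topology

variable {Ω : Type*} [MeasurableSpace Ω] {μ : Measure Ω} [IsProbabilityMeasure μ] {A : Ω → Set ℕ}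

/-- the window of length `h` after `n²` -/
def Wn (n h : ℕ) : Finset ℕ := Ioc (n ^ 2) (n ^ 2 + h)

theorem wn_three {n h : ℕ} (hn : 2 ≤ n) : ∀ m ∈ Wn n h, 3 ≤ m := by
  intro m hm
  unfold Wn at hm
  rw [mem_Ioc] at hm
  nlinarith

/-- the probability that the window is empty -/
noncomputable def pE (n h : ℕ) : ℝ := ∏ m ∈ Wn n h, (1 - 1 / Real.log (m : ℝ))

theorem sum_empty (W : Finset ℕ) : ∑ T ∈ W.powerset with T = ∅, cramerOn W T = ∏ m ∈ W, (1 - 1 / Real.log (m : ℝ)) := by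
  rw [sum_filter, sum_ite_eq' W.powerset ∅ (cramerOn W), if_pos (empty_mem_powerset W)]
  unfold cramerOn
  rw [prod_empty, one_mul, sdiff_empty]

theorem p_eq (hA : IsCramer μ A) {n h : ℕ} (hn : 2 ≤ n) : μ.real {ω | tr A (Wn n h) ω = ∅} = pE n h := by
  classical
  rw [real_pred hA (wn_three hn) (fun T => T = ∅), sum_empty]
  rfl

theorem p_le {n h : ℕ} (hn : 2 ≤ n) (hh : h ≤ n ^ 2) : pE n h ≤ Real.exp (-(h / (2 * Real.log n + Real.log 2))) := by
  have hn0 : (0 : ℝ) < n := by exact_mod_cast (by omega : 0 < n)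
  have hl0 : 0 < Real.log (n : ℝ) := Real.log_pos (by exact_mod_cast (by omega : 1 < n))
  have hl2 : 0 < Real.log 2 := Real.log_pos (by norm_num)
  have h1 : ∀ m ∈ Wn n h, 1 - 1 / Real.log (m : ℝ) ≤ Real.exp (-(1 / (2 * Real.log n + Real.log 2))) := by
    intro m hm
    have hm3 := wn_three hn m hm
    unfold Wn at hm
    rw [mem_Ioc] at hm
    have hm0 : (0 : ℝ) < m := by exact_mod_cast (by omega : 0 < m)
    have hm1 : 0 < Real.log (m : ℝ) := Real.log_pos (by exact_mod_cast (by omega : 1 < m))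
    have h2 : (m : ℝ) ≤ n ^ 2 * 2 := by exact_mod_cast (by omega : m ≤ n ^ 2 * 2)
    have h3 := Real.log_le_log hm0 h2
    rw [Real.log_mul (by positivity) (by norm_num), Real.log_pow] at h3
    push_cast at h3
    have h4 := one_div_le_one_div_of_le hm1 h3
    have h5 := Real.add_one_le_exp (-(1 / (2 * Real.log n + Real.log 2)))
    linarith
  have h0 : ∀ m ∈ Wn n h, 0 ≤ 1 - 1 / Real.log (m : ℝ) := by
    intro m hm
    have := (Q120.TD.inv_log_mem (wn_three hn m hm)).2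
    linarith
  refine (prod_le_prod h0 h1).trans ?_
  rw [prod_const]
  unfold Wn
  rw [Nat.card_Ioc, ← Real.exp_nat_mul, Real.exp_le_exp]
  have e1 : n ^ 2 + h - n ^ 2 = h := by omega
  rw [e1]
  apply le_of_eq
  ring

theorem p_ge {n : ℕ} (hn : 2 ≤ n) (hl : 1 ≤ Real.log (n : ℝ)) (h : ℕ) :
    Real.exp (-(h / (2 * Real.log n) * (1 + 1 / Real.log n))) ≤ pE n h := by
  have hn0 : (0 : ℝ) < n := by exact_mod_cast (by omega : 0 < n)
  have h1 : ∀ m ∈ Wn n h, Real.exp (-(1 / (2 * Real.log n) * (1 + 1 / Real.log n))) ≤ 1 - 1 / Real.log (m : ℝ) := by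
    intro m hm
    have hm3 := wn_three hn m hm
    unfold Wn at hm
    rw [mem_Ioc] at hm
    have hm0 : (0 : ℝ) < m := by exact_mod_cast (by omega : 0 < m)
    have h2 : (n : ℝ) ^ 2 ≤ m := by exact_mod_cast hm.1.le
    have h3 := Real.log_le_log (by positivity) h2
    rw [Real.log_pow] at h3
    push_cast at h3
    have h4 := one_div_le_one_div_of_le (by positivity) h3
    have h6 : 1 / (2 * Real.log n) ≤ 1 / 2 := one_div_le_one_div_of_le (by norm_num) (by linarith)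
    have h5 := one_sub_ge (show 0 ≤ 1 / (2 * Real.log (n : ℝ)) by positivity) h6
    have h7 : -(1 / (2 * Real.log (n : ℝ)) * (1 + 1 / Real.log n)) =
        -(1 / (2 * Real.log n) + 2 * (1 / (2 * Real.log n)) ^ 2) := by
      field_simp
    rw [h7]
    linarith
  have e1 : Real.exp (-(h / (2 * Real.log n) * (1 + 1 / Real.log n))) =
      ∏ m ∈ Wn n h, Real.exp (-(1 / (2 * Real.log n) * (1 + 1 / Real.log n))) := by
    rw [prod_const]
    unfold Wn
    rw [Nat.card_Ioc, ← Real.exp_nat_mul]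
    have e1 : n ^ 2 + h - n ^ 2 = h := by omega
    rw [e1]
    congr 1
    ring
  rw [e1]
  exact prod_le_prod (fun m _ => (Real.exp_pos _).le) h1

theorem pE_le_one {n h : ℕ} (hn : 2 ≤ n) : pE n h ≤ 1 := by
  unfold pE
  refine prod_le_one (fun m hm => ?_) (fun m hm => ?_)
  · have := (Q120.TD.inv_log_mem (wn_three hn m hm)).2
    linarith
  · have := (Q120.TD.inv_log_mem (wn_three hn m hm)).1
    linarith

theorem wn_disjoint {h i j : ℕ} (hi : h ≤ 2 * i) (hj : h ≤ 2 * j) (hij : i ≠ j) : Disjoint (Wn i h) (Wn j h) := by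
  have key : ∀ i j : ℕ, h ≤ 2 * i → i < j → Disjoint (Wn i h) (Wn j h) := by
    intro i j hi hij
    rw [Finset.disjoint_left]
    intro m h1 h2
    unfold Wn at h1 h2
    rw [mem_Ioc] at h1 h2
    nlinarith
  rcases lt_or_gt_of_ne hij with h | h
  · exact key i j hi h
  · exact (key j i hj h).symm

/-- the distance from `n²` to the next element -/
noncomputable def a (S : Set ℕ) (n : ℕ) : ℕ := sInf {m | n ^ 2 < m ∧ m ∈ S} - n ^ 2

theorem lt_a_iff {S : Set ℕ} (hS : S.Infinite) (n : ℕ) {x : ℝ} (hx : 0 ≤ x) :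
    x < a S n ↔ ∀ m ∈ Wn n ⌊x⌋₊, m ∉ S := by
  have hne : ({m | n ^ 2 < m ∧ m ∈ S} : Set ℕ).Nonempty := by
    obtain ⟨m, hm, hm2⟩ := hS.exists_gt (n ^ 2)
    exact ⟨m, hm2, hm⟩
  have hmem := Nat.sInf_mem hne
  obtain ⟨q, hq⟩ : ∃ q : ℕ, q = sInf {m | n ^ 2 < m ∧ m ∈ S} := ⟨_, rfl⟩
  rw [← hq] at hmem
  obtain ⟨h1, h2⟩ := hmem
  unfold a
  rw [← hq, ← Nat.floor_lt hx]
  unfold Wn
  constructor
  · intro h m hm hmS
    rw [mem_Ioc] at hm
    have h3 : q ≤ m := by
      rw [hq]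
      exact Nat.sInf_le ⟨hm.1, hmS⟩
    omega
  · intro h
    by_contra hcon
    exact h q (mem_Ioc.2 ⟨h1, by omega⟩) h2

theorem tr_empty_iff (A : Ω → Set ℕ) (W : Finset ℕ) (ω : Ω) : tr A W ω = ∅ ↔ ∀ m ∈ W, m ∉ A ω := by
  classical
  unfold tr
  rw [Finset.filter_eq_empty_iff]

end Pool.Agent.Q197.PH
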