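import Pool.Agent.H305R2.MertensE

/-!
# The smallest values of Euler's function
-/

set_option autoImplicit false
set_option linter.unusedSectionVars false

namespace Pool.Agent.Q197.PH

open Finset Filter
open scoped Topology

/-- `e ^ (-γ)` -/
noncomputable def eg : ℝ := Real.exp (-Real.eulerMascheroniConstant)

theorem eg_pos : 0 < eg := Real.exp_pos _

/-- The product of Mertens. -/
noncomputable def V (y : ℕ) : ℝ := ∏ p ∈ (Icc 1 y).filter Nat.Prime, (1 - (p : ℝ)⁻¹)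

theorem fac_mem {p : ℕ} (hp : p.Prime) : 0 < 1 - (p : ℝ)⁻¹ ∧ 1 - (p : ℝ)⁻¹ ≤ 1 := by
  have h1 : (2 : ℝ) ≤ p := by exact_mod_cast hp.two_le
  have h2 : (p : ℝ)⁻¹ ≤ 2⁻¹ := inv_anti₀ (by norm_num) h1
  have h3 : 0 < (p : ℝ)⁻¹ := by positivity
  constructor
  · norm_num at h2 ⊢
    linarith
  · linarith

theorem V_pos (y : ℕ) : 0 < V y := prod_pos (fun p hp => (fac_mem (mem_filter.1 hp).2).1)

theorem V_law : Tendsto (fun y : ℕ => V y * Real.log y) atTop (𝓝 eg) := by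
  have h1 := Pool.Agent.H305R2.mertens_three
  have h2 := h1.inv₀ (Real.exp_pos _).ne'
  rw [← Real.exp_neg] at h2
  refine h2.congr (fun N => ?_)
  unfold V
  rw [prod_inv_distrib, inv_div, div_inv_eq_mul, mul_comm]

theorem log_top' : Tendsto (fun n : ℕ => Real.log (n : ℝ)) atTop atTop :=
  Real.tendsto_log_atTop.comp tendsto_natCast_atTop_atTop

theorem loglog_top : Tendsto (fun n : ℕ => Real.log (Real.log (n : ℝ))) atTop atTop :=
  Real.tendsto_log_atTop.comp log_top'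

theorem V_zero : Tendsto V atTop (𝓝 0) := by
  have h1 := V_law.div_atTop log_top'
  refine h1.congr' ?_
  filter_upwards [log_top'.eventually_gt_atTop 0] with y hy
  field_simp

theorem totient_eq (n : ℕ) : (Nat.totient n : ℝ) = n * ∏ p ∈ n.primeFactors, (1 - (p : ℝ)⁻¹) := by
  have h := Nat.totient_eq_mul_prod_factors n
  have h' : ((Nat.totient n : ℚ) : ℝ) = ((n * ∏ p ∈ n.primeFactors, (1 - (p : ℚ)⁻¹) : ℚ) : ℝ) := by
    rw [h]
  push_cast at h'
  exact h'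

/-- **The lower bound.** -/
theorem phi_ge {ε : ℝ} (hε : 0 < ε) (hε1 : ε ≤ 1) : ∀ᶠ n : ℕ in atTop,
    (1 - ε) * eg * (n / Real.log (Real.log n)) ≤ Nat.totient n := by
  have hfl : Tendsto (fun n : ℕ => ⌊Real.log (n : ℝ)⌋₊) atTop atTop := tendsto_nat_floor_atTop.comp log_top'
  have h1 := (V_law.comp hfl).eventually_const_lt (show (1 - ε / 2) * eg < eg by nlinarith [eg_pos])
  filter_upwards [h1, loglog_top.eventually_ge_atTop (2 / ε), log_top'.eventually_ge_atTop 2,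
    eventually_ge_atTop 3] with n h2 h3 h4 h5
  have hn0 : (0 : ℝ) < n := by exact_mod_cast (by omega : 0 < n)
  obtain ⟨L, hL⟩ : ∃ L : ℝ, L = Real.log n := ⟨_, rfl⟩
  obtain ⟨l, hl⟩ : ∃ l : ℝ, l = Real.log L := ⟨_, rfl⟩
  obtain ⟨y, hy⟩ : ∃ y : ℕ, y = ⌊L⌋₊ := ⟨_, rfl⟩
  simp only [Function.comp] at h2
  rw [← hL] at h2 h3 h4 ⊢
  rw [← hy] at h2
  rw [← hl] at h3 ⊢
  have hL0 : 0 < L := by linarith
  have hl0 : 0 < l := lt_of_lt_of_le (by positivity) h3
  have hyL : (y : ℝ) ≤ L := by rw [hy]; exact Nat.floor_le hL0.le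
  have hy1 : 1 ≤ y := by
    rw [hy]
    exact Nat.le_floor (by push_cast; linarith)
  have hLy : L < y + 1 := by rw [hy]; exact Nat.lt_floor_add_one L
  -- the two parts
  obtain ⟨Bg, hBg⟩ : ∃ Bg : Finset ℕ, Bg = n.primeFactors.filter (fun p => y < p) := ⟨_, rfl⟩
  obtain ⟨Sm, hSm⟩ : ∃ Sm : Finset ℕ, Sm = n.primeFactors.filter (fun p => ¬ y < p) := ⟨_, rfl⟩
  have hsplit : ∏ p ∈ n.primeFactors, (1 - (p : ℝ)⁻¹) = (∏ p ∈ Bg, (1 - (p : ℝ)⁻¹)) * ∏ p ∈ Sm, (1 - (p : ℝ)⁻¹) := by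
    rw [hBg, hSm, prod_filter_mul_prod_filter_not]
  have hSmV : V y ≤ ∏ p ∈ Sm, (1 - (p : ℝ)⁻¹) := by
    unfold V
    have hsub : Sm ⊆ (Icc 1 y).filter Nat.Prime := by
      intro p hp
      rw [hSm, mem_filter] at hp
      rw [mem_filter, mem_Icc]
      have h6 := Nat.prime_of_mem_primeFactors hp.1
      exact ⟨⟨h6.one_lt.le, not_lt.1 hp.2⟩, h6⟩
    rw [← prod_sdiff hsub]
    have h6 : ∏ p ∈ (Icc 1 y).filter Nat.Prime \ Sm, (1 - (p : ℝ)⁻¹) ≤ 1 := by
      refine prod_le_one (fun p hp => ?_) (fun p hp => ?_)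
      · exact (fac_mem (mem_filter.1 (Finset.mem_sdiff.1 hp).1).2).1.le
      · exact (fac_mem (mem_filter.1 (Finset.mem_sdiff.1 hp).1).2).2
    have h7 : 0 ≤ ∏ p ∈ Sm, (1 - (p : ℝ)⁻¹) := by
      refine prod_nonneg (fun p hp => ?_)
      exact (fac_mem (mem_filter.1 (hsub hp)).2).1.le
    nlinarith
  have hcard : (Bg.card : ℝ) * l ≤ L := by
    have h6 : ∏ p ∈ Bg, p ≤ n := by
      refine Nat.le_of_dvd (by omega) ?_
      refine dvd_trans (prod_dvd_prod_of_subset _ _ _ (by rw [hBg]; exact filter_subset _ _)) (Nat.prod_primeFactors_dvd n)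
    have h7 : L ^ Bg.card ≤ ((∏ p ∈ Bg, p : ℕ) : ℝ) := by
      push_cast
      rw [← prod_const]
      refine prod_le_prod (fun _ _ => hL0.le) (fun p hp => ?_)
      rw [hBg, mem_filter] at hp
      have : ((y + 1 : ℕ) : ℝ) ≤ p := by exact_mod_cast hp.2
      push_cast at this
      linarith
    have h8 : L ^ Bg.card ≤ n := h7.trans (by exact_mod_cast h6)
    have h9 := Real.log_le_log (by positivity) h8
    rw [Real.log_pow, ← hl, ← hL] at h9
    exact h9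
  have hBgV : 1 - ε / 2 ≤ ∏ p ∈ Bg, (1 - (p : ℝ)⁻¹) := by
    have h6 : (1 - L⁻¹) ^ Bg.card ≤ ∏ p ∈ Bg, (1 - (p : ℝ)⁻¹) := by
      rw [← prod_const]
      have hL2 : L⁻¹ ≤ 2⁻¹ := inv_anti₀ (by norm_num) h4
      refine prod_le_prod (fun _ _ => by norm_num at hL2 ⊢; linarith) (fun p hp => ?_)
      rw [hBg, mem_filter] at hp
      have h8 : ((y + 1 : ℕ) : ℝ) ≤ p := by exact_mod_cast hp.2
      push_cast at h8
      have := inv_anti₀ hL0 (show L ≤ p by linarith)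
      linarith
    refine le_trans ?_ h6
    have hL2 : L⁻¹ ≤ 2⁻¹ := inv_anti₀ (by norm_num) h4
    have h7 := one_add_mul_le_pow (show (-2 : ℝ) ≤ -L⁻¹ by norm_num at hL2 ⊢; linarith) Bg.card
    have e : (1 : ℝ) + -L⁻¹ = 1 - L⁻¹ := by ring
    rw [e] at h7
    refine le_trans ?_ h7
    have h8 : (Bg.card : ℝ) * L⁻¹ ≤ l⁻¹ := by
      rw [← div_eq_mul_inv, div_le_iff₀ hL0]
      have : (Bg.card : ℝ) ≤ L / l := by rw [le_div_iff₀ hl0]; exact hcard
      rw [inv_mul_eq_div]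
      exact this
    have h9 : l⁻¹ ≤ ε / 2 := by
      rw [inv_le_comm₀ hl0 (by positivity), inv_div]
      exact h3
    linarith
  have hVy : (1 - ε / 2) * eg ≤ V y * l := by
    have h6 : Real.log (y : ℝ) ≤ l := by
      rw [hl]
      exact Real.log_le_log (by exact_mod_cast hy1) hyL
    have := mul_le_mul_of_nonneg_left h6 (V_pos y).le
    linarith
  rw [totient_eq, hsplit]
  have h6 : (1 - ε) * eg / l ≤ (∏ p ∈ Bg, (1 - (p : ℝ)⁻¹)) * ∏ p ∈ Sm, (1 - (p : ℝ)⁻¹) := by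
    have h7 : (1 - ε / 2) * V y ≤ (∏ p ∈ Bg, (1 - (p : ℝ)⁻¹)) * ∏ p ∈ Sm, (1 - (p : ℝ)⁻¹) :=
      mul_le_mul hBgV hSmV (V_pos y).le (le_trans (by linarith) hBgV)
    refine le_trans ?_ h7
    rw [div_le_iff₀ hl0]
    have h8 : (1 - ε / 2) * ((1 - ε / 2) * eg) ≤ (1 - ε / 2) * (V y * l) := mul_le_mul_of_nonneg_left hVy (by linarith)
    have h9 : (1 - ε) * eg ≤ (1 - ε / 2) * ((1 - ε / 2) * eg) := by
      have := eg_pos
      nlinarith [sq_nonneg ε]
    linarith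
  calc (1 - ε) * eg * (n / l) = n * ((1 - ε) * eg / l) := by ring
    _ ≤ _ := mul_le_mul_of_nonneg_left h6 hn0.le

/-- **The upper bound, for the multiples of a small number.** -/
theorem exists_P {ε c : ℝ} (hε : 0 < ε) (hc : 0 < c) : ∀ᶠ N : ℕ in atTop, ∃ P : ℕ, 1 ≤ P ∧ (P : ℝ) ≤ (N : ℝ) ^ c ∧
    ∀ n : ℕ, P ∣ n → 0 < n → (Nat.totient n : ℝ) ≤ (1 + ε) * eg * (n / Real.log (Real.log N)) := by
  have hlog4 : 0 < Real.log 4 := Real.log_pos (by norm_num)
  obtain ⟨d, hd⟩ : ∃ d : ℝ, d = c / Real.log 4 := ⟨_, rfl⟩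
  have hd0 : 0 < d := by rw [hd]; positivity
  have hfl : Tendsto (fun n : ℕ => ⌊d * Real.log (n : ℝ)⌋₊) atTop atTop :=
    tendsto_nat_floor_atTop.comp (log_top'.const_mul_atTop hd0)
  obtain ⟨K, hK⟩ : ∃ K : ℝ, K = |Real.log (d / 2)| := ⟨_, rfl⟩
  have h0 : Tendsto (fun n : ℕ => V ⌊d * Real.log (n : ℝ)⌋₊ * Real.log ⌊d * Real.log (n : ℝ)⌋₊ +
      K * V ⌊d * Real.log (n : ℝ)⌋₊) atTop (𝓝 (eg + K * 0)) :=
    (V_law.comp hfl).add ((V_zero.comp hfl).const_mul K)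
  rw [mul_zero, add_zero] at h0
  filter_upwards [h0.eventually_lt_const (show eg < (1 + ε) * eg by nlinarith [eg_pos]),
    log_top'.eventually_ge_atTop (2 / d), eventually_ge_atTop 3, loglog_top.eventually_gt_atTop 0] with N h1 h2 h3 h4
  have hN0 : (0 : ℝ) < N := by exact_mod_cast (by omega : 0 < N)
  obtain ⟨L, hL⟩ : ∃ L : ℝ, L = Real.log N := ⟨_, rfl⟩
  rw [← hL] at h1 h2 h4 ⊢
  obtain ⟨y, hy⟩ : ∃ y : ℕ, y = ⌊d * L⌋₊ := ⟨_, rfl⟩
  rw [← hy] at h1
  have hdL : 2 ≤ d * L := by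
    rw [div_le_iff₀ hd0] at h2
    linarith
  have hL0 : 0 < L := by
    by_contra hcon
    have : d * L ≤ 0 := mul_nonpos_of_nonneg_of_nonpos hd0.le (not_lt.1 hcon)
    linarith
  have hyd : (y : ℝ) ≤ d * L := by rw [hy]; exact Nat.floor_le (by linarith)
  have hyd2 : d / 2 * L ≤ y := by
    have := Nat.lt_floor_add_one (d * L)
    rw [hy]
    linarith
  have hy0 : (0 : ℝ) < y := lt_of_lt_of_le (by positivity) hyd2
  refine ⟨primorial y, primorial_pos y, ?_, fun n hn hn0 => ?_⟩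
  · have h5 : ((primorial y : ℕ) : ℝ) ≤ 4 ^ y := by exact_mod_cast primorial_le_four_pow y
    refine h5.trans ?_
    rw [← Real.rpow_natCast, Real.rpow_def_of_pos (by norm_num), Real.rpow_def_of_pos hN0, ← hL, Real.exp_le_exp]
    have h6 : Real.log 4 * y ≤ Real.log 4 * (d * L) := mul_le_mul_of_nonneg_left hyd hlog4.le
    have h7 : Real.log 4 * (d * L) = L * c := by
      rw [hd]
      field_simp
    linarith
  · rw [totient_eq]
    have hsub : (Icc 1 y).filter Nat.Prime ⊆ n.primeFactors := by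
      intro p hp
      rw [mem_filter, mem_Icc] at hp
      rw [Nat.mem_primeFactors]
      refine ⟨hp.2, dvd_trans ?_ hn, by omega⟩
      exact (hp.2.dvd_primorial_iff).2 hp.1.2
    have h5 : ∏ p ∈ n.primeFactors, (1 - (p : ℝ)⁻¹) ≤ V y := by
      unfold V
      rw [← prod_sdiff hsub]
      have h6 : ∏ p ∈ n.primeFactors \ (Icc 1 y).filter Nat.Prime, (1 - (p : ℝ)⁻¹) ≤ 1 := by
        refine prod_le_one (fun p hp => ?_) (fun p hp => ?_)
        · exact (fac_mem (Nat.prime_of_mem_primeFactors (Finset.mem_sdiff.1 hp).1)).1.le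
        · exact (fac_mem (Nat.prime_of_mem_primeFactors (Finset.mem_sdiff.1 hp).1)).2
      have h7 := (V_pos y).le
      unfold V at h7
      nlinarith
    have h6 : V y * Real.log L ≤ (1 + ε) * eg := by
      have h7 : Real.log L ≤ Real.log y + K := by
        have h8 := Real.log_le_log (by positivity) hyd2
        rw [Real.log_mul (by positivity) hL0.ne'] at h8
        have h9 := neg_abs_le (Real.log (d / 2))
        rw [← hK] at h9
        linarith
      have h8 := mul_le_mul_of_nonneg_left h7 (V_pos y).le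
      linarith
    have hnr : (0 : ℝ) < n := by exact_mod_cast hn0
    calc (n : ℝ) * ∏ p ∈ n.primeFactors, (1 - (p : ℝ)⁻¹) ≤ n * V y := mul_le_mul_of_nonneg_left h5 hnr.le
      _ = (V y * Real.log L) * (n / Real.log L) := by
          field_simp
      _ ≤ _ := mul_le_mul_of_nonneg_right h6 (by positivity)

end Pool.Agent.Q197.PH
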